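import Mathlib
import Pool.Agent.H.MP_f97503_an.Sep
import Pool.Agent.H.MP_f97503_an.Build

namespace Pool.Agent.Results.MP_f97503_an.Yes
open Set Topology Filter Pool.Agent.H.MP_f97503_an

/-- `M(K) = C(K)^*` with the weak-star topology (Riesz identification). -/
abbrev M (K : Type*) [TopologicalSpace K] [CompactSpace K] := WeakDual ℝ C(K, ℝ)

variable {K : Type*} [TopologicalSpace K] [CompactSpace K]

/-- The value of the positive part `μ⁺` on a function `g ≥ 0` (Riesz-Kantorovich formula). -/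
noncomputable def posPartVal (μ : M K) (g : C(K, ℝ)) : ℝ :=
  sSup {t | ∃ h : C(K, ℝ), 0 ≤ h ∧ h ≤ g ∧ t = μ h}

/-- `ν` is a compensation of `μ`; `μ(K) = μ 1`. -/
def IsCompensation (μ ν : M K) : Prop :=
  (0 < μ 1 ∧ (∀ g : C(K, ℝ), 0 ≤ g → 0 ≤ ν g ∧ ν g ≤ posPartVal μ g) ∧ ν 1 = μ 1) ∨
    (μ 1 ≤ 0 ∧ ν = 0)

/-- `ξ : S → M(K)` is an `S`-compensation function. -/
def IsCompFun (S : Set (M K)) (ξ : S → M K) : Prop :=
  Continuous ξ ∧ ∀ μ : S, IsCompensation μ.1 (ξ μ)

/-- The closed unit ball of `M(K)` for the dual (total variation) norm. -/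
def ball (K : Type*) [TopologicalSpace K] [CompactSpace K] : Set (M K) :=
  {μ | ‖WeakDual.toStrongDual μ‖ ≤ 1}

theorem bdd (μ : M K) (g : C(K, ℝ)) :
    BddAbove {t | ∃ h : C(K, ℝ), 0 ≤ h ∧ h ≤ g ∧ t = μ h} := by
  refine ⟨‖WeakDual.toStrongDual μ‖ * ‖g‖, ?_⟩
  rintro t ⟨h, h0, hg, rfl⟩
  have h1 := (WeakDual.toStrongDual μ).le_opNorm h
  have h2 : ‖h‖ ≤ ‖g‖ := by
    rw [ContinuousMap.norm_le _ (norm_nonneg g)]
    intro x
    have a : (0 : ℝ) ≤ h x := h0 x
    have b : h x ≤ g x := hg x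
    rw [Real.norm_eq_abs, abs_of_nonneg a]
    exact b.trans ((le_abs_self _).trans (g.norm_coe_le_norm x))
  exact (le_abs_self _).trans (h1.trans (mul_le_mul_of_nonneg_left h2
    (ContinuousLinearMap.opNorm_nonneg _)))

noncomputable def tri (x y z : K) : M K :=
  StrongDual.toWeakDual ((1 / 3 : ℝ) • (ContinuousMap.evalCLM ℝ x + ContinuousMap.evalCLM ℝ y -
    ContinuousMap.evalCLM ℝ z))

theorem tri_apply (x y z : K) (g : C(K, ℝ)) : tri x y z g = 1 / 3 * (g x + g y - g z) := rfl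

theorem tri_mem (x y z : K) : tri x y z ∈ ball K := by
  apply ContinuousLinearMap.opNorm_le_bound _ zero_le_one
  intro g
  show |tri x y z g| ≤ _
  rw [tri_apply, abs_le]
  have a := abs_le.1 (g.norm_coe_le_norm x)
  have b := abs_le.1 (g.norm_coe_le_norm y)
  have c := abs_le.1 (g.norm_coe_le_norm z)
  constructor <;> linarith [a.1, a.2, b.1, b.2, c.1, c.2]

theorem exists_a [T2Space K] (ξ : ball K → M K) (hξ : IsCompFun _ ξ) :
    ∃ a : K → K → K → ℝ,
      ContinuousOn (fun p : K × K × K => a p.1 p.2.1 p.2.2) {p | p.1 ≠ p.2.1} ∧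
      (∀ x y, x ≠ y → a x y x = 1) ∧ (∀ x y, x ≠ y → a x y y = 0) := by
  classical
  let ν : K → K → K → M K := fun x y z => ξ ⟨tri x y z, tri_mem x y z⟩
  have hν : ∀ x y z, (∀ g : C(K, ℝ), 0 ≤ g → 0 ≤ ν x y z g ∧
      ∀ b, (∀ h : C(K, ℝ), 0 ≤ h → h ≤ g → 1 / 3 * (h x + h y - h z) ≤ b) → ν x y z g ≤ b) ∧
      ν x y z 1 = 1 / 3 := by
    intro x y z
    have e : tri x y z 1 = 1 / 3 := by rw [tri_apply]; simp
    rcases hξ.2 ⟨tri x y z, tri_mem x y z⟩ with ⟨-, h2, h3⟩ | ⟨h, -⟩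
    · refine ⟨fun g hg => ⟨(h2 g hg).1, fun b hb => (h2 g hg).2.trans ?_⟩, h3.trans e⟩
      refine csSup_le ⟨_, 0, le_rfl, hg, rfl⟩ ?_
      rintro t ⟨h, h0, h1, rfl⟩
      exact hb h h0 h1
    · simp only [e] at h; norm_num at h
  have hdep : ∀ x y z (g g' : C(K, ℝ)), g x = g' x → g y = g' y → ν x y z g = ν x y z g' := by
    intro x y z g g' hx hy
    have h1 : ν x y z |g - g'| ≤ 0 := by
      refine ((hν x y z).1 _ (abs_nonneg _)).2 0 fun h h0 h1 => ?_
      have a : h x ≤ |g x - g' x| := h1 x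
      have b : h y ≤ |g y - g' y| := h1 y
      have c : (0 : ℝ) ≤ h z := h0 z
      rw [hx, sub_self, abs_zero] at a
      rw [hy, sub_self, abs_zero] at b
      linarith
    have h2 := ((hν x y z).1 _ (sub_nonneg.2 (le_abs_self (g - g')))).1
    have h3 := ((hν x y z).1 _ (sub_nonneg.2 (neg_le_abs (g - g')))).1
    simp only [map_sub, map_neg] at h2 h3
    linarith
  have hsepf : ∀ x y : K, x ≠ y → ∃ g : C(K, ℝ), (∀ᶠ t in 𝓝 x, g t = 0) ∧ (∀ᶠ t in 𝓝 y, g t = 1) ∧
      ∀ t, 0 ≤ g t ∧ g t ≤ 1 := by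
    intro x y hxy
    obtain ⟨U, V, hU, hV, hxU, hyV, hUV⟩ := t2_separation hxy
    obtain ⟨A, hA, hAc, hAU⟩ := exists_mem_nhds_isClosed_subset (hU.mem_nhds hxU)
    obtain ⟨B, hB, hBc, hBV⟩ := exists_mem_nhds_isClosed_subset (hV.mem_nhds hyV)
    obtain ⟨g, g0, g1, g2⟩ := exists_continuous_zero_one_of_isClosed hAc hBc (hUV.mono hAU hBV)
    exact ⟨g, mem_of_superset hA fun t ht => g0 ht, mem_of_superset hB fun t ht => g1 ht,
      fun t => g2 t⟩
  choose! s hs0 hs1 hs2 using hsepf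
  refine ⟨fun x y z => 3 * ν x y z (s x y), ?_, ?_, ?_⟩
  · rintro ⟨x, y, z⟩ hxy
    have hxy : x ≠ y := hxy
    apply ContinuousAt.continuousWithinAt
    have hc : Continuous fun p : K × K × K => 3 * ν p.1 p.2.1 p.2.2 (s x y) := by
      refine continuous_const.mul ((WeakDual.eval_continuous (s x y)).comp (hξ.1.comp ?_))
      refine Continuous.subtype_mk ?_ _
      apply WeakDual.continuous_of_continuous_eval
      intro g
      simp only [tri_apply]
      fun_prop
    refine hc.continuousAt.congr ?_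
    have e1 : ∀ᶠ p : K × K × K in 𝓝 (x, y, z), s x y p.1 = 0 :=
      (continuous_fst.tendsto (x, y, z)).eventually (hs0 x y hxy)
    have e2 : ∀ᶠ p : K × K × K in 𝓝 (x, y, z), s x y p.2.1 = 1 :=
      ((continuous_fst.comp continuous_snd).tendsto (x, y, z)).eventually (hs1 x y hxy)
    filter_upwards [e1, e2] with p h1 h2
    have hne : p.1 ≠ p.2.1 := by
      intro h; rw [h, h2] at h1; norm_num at h1
    rw [hdep _ _ _ (s x y) (s p.1 p.2.1)]
    · rw [h1, (hs0 _ _ hne).self_of_nhds]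
    · rw [h2, (hs1 _ _ hne).self_of_nhds]
  · intro x y hxy
    have h0 : (0 : C(K, ℝ)) ≤ 1 - s x y := fun t => sub_nonneg.2 (hs2 x y hxy t).2
    have h1 := (hν x y x).1 _ h0
    have h2 := h1.2 0 fun h _ h2 => by
      have b : h y ≤ 1 - s x y y := h2 y
      rw [(hs1 _ _ hxy).self_of_nhds] at b
      linarith
    have h3 := h1.1
    rw [map_sub, (hν x y x).2] at h2 h3
    linarith
  · intro x y hxy
    have h0 : (0 : C(K, ℝ)) ≤ s x y := fun t => (hs2 x y hxy t).1
    have h1 := (hν x y y).1 _ h0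
    have h2 := h1.2 0 fun h _ h2 => by
      have b : h x ≤ s x y x := h2 x
      rw [(hs0 _ _ hxy).self_of_nhds] at b
      linarith
    linarith [h1.1]

theorem result (K : Type*) [TopologicalSpace K] [CompactSpace K] [T2Space K]
    (h : ∃ ξ : ball K → M K, IsCompFun (ball K) ξ) :
    (∃ ξ : ↥(univ : Set (M K)) → M K, IsCompFun univ ξ) ∧ TopologicalSpace.MetrizableSpace K := by
  obtain ⟨ξ0, hξ0⟩ := h
  obtain ⟨a, ha, h1, h0⟩ := exists_a ξ0 hξ0
  obtain ⟨G, hG, hG0, hsep⟩ := sep a ha h1 h0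
  constructor
  · rcases isEmpty_or_nonempty K with hK | hK
    · refine ⟨fun _ => 0, continuous_const, fun μ => Or.inr ⟨?_, rfl⟩⟩
      have : (1 : C(K, ℝ)) = 0 := by ext x; exact isEmptyElim x
      rw [this, map_zero]
    obtain ⟨u, hu, hN⟩ := seq G hG hG0 hsep
    obtain ⟨ξ, hc, hξ⟩ := build u hu hN
    refine ⟨fun μ => ξ μ.1, hc.comp continuous_subtype_val, ?_⟩
    rintro ⟨μ, -⟩
    obtain ⟨p1, p2⟩ := hξ μ
    rcases lt_or_ge 0 (μ 1) with hm | hm
    · left
      refine ⟨hm, fun g hg => ⟨?_, ?_⟩, ?_⟩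
      · have := (p1 g 0 ‖g‖ fun x => ⟨hg x, (le_abs_self _).trans (g.norm_coe_le_norm x)⟩).1
        simpa using this
      · refine le_of_forall_pos_le_add fun δ hδ => ?_
        obtain ⟨h, a1, a2, a3⟩ := p2 g hg δ hδ
        have : μ h ≤ posPartVal μ g := le_csSup (bdd μ g) ⟨h, a1, a2, rfl⟩
        show ξ μ g ≤ posPartVal μ g + δ
        linarith
      · have := p1 1 1 1 fun x => ⟨le_rfl, le_rfl⟩
        rw [max_eq_left hm.le, one_mul] at this
        exact le_antisymm this.2 this.1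
    · right
      refine ⟨hm, ?_⟩
      apply DFunLike.ext
      intro g
      have := p1 g _ _ fun x => abs_le.1 (g.norm_coe_le_norm x)
      rw [max_eq_right hm, mul_zero, mul_zero] at this
      exact le_antisymm this.2 this.1
  · haveI : Countable G := hG.to_subtype
    let e : K → (G → ℝ) := fun x g => g.1 x
    have hec : Continuous e := continuous_pi fun g => g.1.continuous
    have hinj : Function.Injective e := fun x y hxy =>
      hsep x y fun g hg => congrFun hxy ⟨g, hg⟩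
    exact (hec.isClosedEmbedding hinj).isEmbedding.metrizableSpace

end Pool.Agent.Results.MP_f97503_an.Yes
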